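import Pool.Agent.helper54.GR3.Spec

/-!
# Project g3: (MP_af9036_an): WS3, the sum with weight `r²/dist³` outside a disc
-/

set_option autoImplicit false

open Complex Metric Set Filter Topology MeasureTheory
open MPS (om)
open PPS (pre TT fd)
open XPS (Df er dens tau)
open Pool.Agent.helper16.Multibrot

noncomputable section

namespace GR

theorem WS3 (hARE : ARE_stmt) : WS3_stmt := by
  intro ι s z r a d hd hr hdis hra hda
  classical
  have hch : ∀ j, ∃ m : ℕ, j ∈ s → 2 ^ m * d ≤ ‖z j - a‖ ∧ ‖z j - a‖ < 2 ^ (m + 1) * d := by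
    intro j
    by_cases hj : j ∈ s
    · have h1 : 1 ≤ ‖z j - a‖ / d := by
        rw [le_div_iff₀ hd, one_mul]
        exact hda j hj
      obtain ⟨m, hm1, hm2⟩ := exists_nat_pow_near h1 (one_lt_two)
      refine ⟨m, fun _ => ⟨?_, ?_⟩⟩
      · rwa [le_div_iff₀ hd] at hm1
      · rwa [div_lt_iff₀ hd] at hm2
    · exact ⟨0, fun h => absurd h hj⟩
  choose m hm using hch
  have hfib : ∀ k : ℕ, ∑ j ∈ s with m j = k, r j ^ 2 / ‖z j - a‖ ^ 3 ≤ 9 / d * (1 / 2) ^ k := by
    intro k
    have hk : (0 : ℝ) < 2 ^ k * d := by positivity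
    have h1 : ∑ j ∈ s with m j = k, r j ^ 2 ≤ (3 * (2 ^ k * d)) ^ 2 := by
      refine hARE ι _ z r a _ ?_ ?_ ?_
      · intro j hj
        exact hr j (Finset.mem_filter.1 hj).1
      · intro i hi j hj
        exact hdis i (Finset.mem_filter.1 hi).1 j (Finset.mem_filter.1 hj).1
      · intro j hj
        obtain ⟨hjs, hjk⟩ := Finset.mem_filter.1 hj
        have h2 := (hm j hjs).2
        rw [hjk, pow_succ] at h2
        have h3 := hra j hjs
        linarith
    calc ∑ j ∈ s with m j = k, r j ^ 2 / ‖z j - a‖ ^ 3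
        ≤ ∑ j ∈ s with m j = k, r j ^ 2 / (2 ^ k * d) ^ 3 := by
          refine Finset.sum_le_sum fun j hj => ?_
          obtain ⟨hjs, hjk⟩ := Finset.mem_filter.1 hj
          have h2 := (hm j hjs).1
          rw [hjk] at h2
          exact div_le_div_of_nonneg_left (by positivity) (by positivity)
            (pow_le_pow_left₀ hk.le h2 3)
      _ = (∑ j ∈ s with m j = k, r j ^ 2) / (2 ^ k * d) ^ 3 := by rw [Finset.sum_div]
      _ ≤ (3 * (2 ^ k * d)) ^ 2 / (2 ^ k * d) ^ 3 :=
          div_le_div_of_nonneg_right h1 (by positivity)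
      _ = 9 / d * (1 / 2) ^ k := by
          rw [one_div, inv_pow]
          field_simp
          norm_num
  have hmap : ∀ j ∈ s, m j ∈ s.image m := fun j hj => Finset.mem_image_of_mem m hj
  rw [← Finset.sum_fiberwise_of_maps_to hmap]
  calc ∑ k ∈ s.image m, ∑ j ∈ s with m j = k, r j ^ 2 / ‖z j - a‖ ^ 3
      ≤ ∑ k ∈ s.image m, 9 / d * (1 / 2) ^ k := Finset.sum_le_sum fun k _ => hfib k
    _ = 9 / d * ∑ k ∈ s.image m, (1 / 2 : ℝ) ^ k := by rw [Finset.mul_sum]
    _ ≤ 9 / d * 2 := by
        refine mul_le_mul_of_nonneg_left ?_ (by positivity)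
        exact (summable_geometric_two.sum_le_tsum (s.image m) (fun k _ => by positivity)).trans
          (le_of_eq tsum_geometric_two)
    _ = 18 / d := by ring

end GR
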